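import Mathlib

/-!
Large homogeneous sets by exhaustion (Fox and Sudakov): from nearly homogeneous pairs inside
every subset to sets whose inner density is small for the relation or for its negation.
-/

set_option autoImplicit false

open Finset

namespace Pool.Agent.Lib.MP_b9b22b_co.Few.H68

variable {V : Type*}

open Classical in
/-- Number of pairs of `X × Y` in the relation `r`. -/
noncomputable def ec (r : V → V → Prop) (X Y : Finset V) : ℝ :=
  ∑ x ∈ X, ∑ y ∈ Y, if r x y then (1 : ℝ) else 0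

theorem ec_nonneg (r : V → V → Prop) (X Y : Finset V) : 0 ≤ ec r X Y := by
  unfold ec
  refine Finset.sum_nonneg fun x _ => Finset.sum_nonneg fun y _ => ?_
  split_ifs <;> norm_num

theorem ec_le (r : V → V → Prop) (X Y : Finset V) :
    ec r X Y ≤ (X.card : ℝ) * Y.card := by
  classical
  unfold ec
  calc ∑ x ∈ X, ∑ y ∈ Y, (if r x y then (1 : ℝ) else 0)
      ≤ ∑ x ∈ X, ∑ y ∈ Y, (1 : ℝ) := by
        refine Finset.sum_le_sum fun x _ => Finset.sum_le_sum fun y _ => ?_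
        split_ifs <;> norm_num
    _ = (X.card : ℝ) * Y.card := by simp

theorem ec_add_not (r : V → V → Prop) (X Y : Finset V) :
    ec r X Y + ec (fun x y => ¬ r x y) X Y = (X.card : ℝ) * Y.card := by
  classical
  unfold ec
  rw [← Finset.sum_add_distrib]
  refine (Finset.sum_congr rfl (g := fun _ => (Y.card : ℝ)) fun x _ => ?_).trans (by simp)
  rw [← Finset.sum_add_distrib]
  refine (Finset.sum_congr rfl (g := fun _ => (1 : ℝ)) fun y _ => ?_).trans (by simp)
  by_cases h : r x y <;> simp [h]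

theorem ec_swap {r : V → V → Prop} (hr : ∀ x y, r x y → r y x) (X Y : Finset V) :
    ec r X Y = ec r Y X := by
  classical
  unfold ec
  rw [Finset.sum_comm]
  refine Finset.sum_congr rfl fun x _ => Finset.sum_congr rfl fun y _ => ?_
  by_cases h : r x y
  · rw [if_pos h, if_pos (hr _ _ h)]
  · rw [if_neg h, if_neg fun h' => h (hr _ _ h')]

theorem ec_union_left (r : V → V → Prop) [DecidableEq V] {X X' : Finset V} (h : Disjoint X X')
    (Y : Finset V) : ec r (X ∪ X') Y = ec r X Y + ec r X' Y := by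
  unfold ec
  rw [Finset.sum_union h]

theorem ec_union_right (r : V → V → Prop) [DecidableEq V] (X : Finset V) {Y Y' : Finset V}
    (h : Disjoint Y Y') : ec r X (Y ∪ Y') = ec r X Y + ec r X Y' := by
  unfold ec
  rw [← Finset.sum_add_distrib]
  exact Finset.sum_congr rfl fun x _ => Finset.sum_union h

/-- `T` has inner density at most `2^(-i) + 4 η`. -/
def Good (r : V → V → Prop) (i : ℕ) (η : ℝ) (T : Finset V) : Prop :=
  ec r T T ≤ ((1 / 2 : ℝ) ^ i + 4 * η) * (T.card : ℝ) ^ 2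

/-- Exhaustion: some set of the family has small weight. -/
theorem cover [DecidableEq V] {X : Finset V} {N : ℕ} (hN : 1 ≤ N) {P : Finset V → Prop}
    (hP : ∀ S ⊆ X, (X.card : ℝ) / 2 ≤ S.card → ∃ T ⊆ S, T.card = N ∧ P T)
    {w : V → ℝ} (hw : ∀ x, 0 ≤ w x) {c : ℝ} (hc : 0 ≤ c) (hsum : ∑ x ∈ X, w x ≤ c * X.card) :
    ∃ T ⊆ X, T.card = N ∧ P T ∧ ∑ x ∈ T, w x ≤ 2 * c * N := by
  by_contra hcon
  push Not at hcon
  let F : Finset (Finset V) := X.powerset.filter
    (fun S => S = X ∨ 2 * c * ((X.card : ℝ) - S.card) < ∑ x ∈ X \ S, w x)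
  have hF : F.Nonempty := ⟨X, by simp [F]⟩
  obtain ⟨S, hS, hmin⟩ := F.exists_min_image Finset.card hF
  rw [Finset.mem_filter, Finset.mem_powerset] at hS
  obtain ⟨hSX, hS2⟩ := hS
  by_cases hhalf : (X.card : ℝ) / 2 ≤ S.card
  · obtain ⟨T, hTS, hTN, hPT⟩ := hP S hSX hhalf
    have h1 := hcon T (hTS.trans hSX) hTN hPT
    have h2 : S \ T ∈ F := by
      rw [Finset.mem_filter, Finset.mem_powerset]
      refine ⟨Finset.sdiff_subset.trans hSX, Or.inr ?_⟩
      have h3 : X \ (S \ T) = (X \ S) ∪ T := by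
        ext x
        simp only [Finset.mem_sdiff, Finset.mem_union]
        constructor
        · rintro ⟨hx, hx2⟩
          by_cases hxS : x ∈ S
          · right
            by_contra hxT
            exact hx2 ⟨hxS, hxT⟩
          · exact Or.inl ⟨hx, hxS⟩
        · rintro (⟨hx, hxS⟩ | hxT)
          · exact ⟨hx, fun h => hxS h.1⟩
          · exact ⟨hSX (hTS hxT), fun h => h.2 hxT⟩
      have h4 : Disjoint (X \ S) T :=
        Finset.disjoint_left.mpr fun x hx hxT => (Finset.mem_sdiff.mp hx).2 (hTS hxT)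
      have h5 : ((S \ T).card : ℝ) = (S.card : ℝ) - N := by
        rw [Finset.card_sdiff_of_subset hTS, hTN, Nat.cast_sub]
        rw [← hTN]
        exact Finset.card_le_card hTS
      have h6 : 2 * c * ((X.card : ℝ) - S.card) ≤ ∑ x ∈ X \ S, w x := by
        rcases hS2 with h | h
        · subst h
          simp
        · exact h.le
      rw [h3, Finset.sum_union h4, h5]
      nlinarith
    have h7 := hmin _ h2
    have h8 : (S \ T).card < S.card := by
      rw [Finset.card_sdiff_of_subset hTS, hTN]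
      have := Finset.card_le_card hTS
      omega
    omega
  · push Not at hhalf
    rcases hS2 with h | h
    · subst h
      have : (0 : ℝ) ≤ S.card := Nat.cast_nonneg _
      linarith
    · have h1 : ∑ x ∈ X \ S, w x ≤ ∑ x ∈ X, w x :=
        Finset.sum_le_sum_of_subset_of_nonneg Finset.sdiff_subset fun x _ _ => hw x
      have h2 : c * (X.card : ℝ) ≤ 2 * c * ((X.card : ℝ) - S.card) := by nlinarith
      linarith

theorem merge [DecidableEq V] {r : V → V → Prop} (hr : ∀ x y, r x y → r y x) {η : ℝ}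
    (hη : 0 ≤ η) {X Y : Finset V} (hXY : Disjoint X Y)
    (hd : ec r X Y ≤ η * (X.card * Y.card)) {N i : ℕ} (hN : 1 ≤ N)
    (hX : ∀ S ⊆ X, (X.card : ℝ) / 2 ≤ S.card → ∃ T ⊆ S, T.card = N ∧ Good r i η T)
    (hY : ∀ S ⊆ Y, (Y.card : ℝ) / 2 ≤ S.card → ∃ T ⊆ S, T.card = N ∧ Good r i η T) :
    ∃ T ⊆ X ∪ Y, T.card = 2 * N ∧ Good r (i + 1) η T := by
  classical
  have hnn : ∀ (Z : Finset V) (x : V), 0 ≤ ∑ y ∈ Z, (if r x y then (1 : ℝ) else 0) :=
    fun Z x => Finset.sum_nonneg fun y _ => by split_ifs <;> norm_num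
  obtain ⟨T₁, hT₁, hN₁, hG₁, hw₁⟩ := cover hN hX (w := fun x => ∑ y ∈ Y, if r x y then (1 : ℝ) else 0)
    (hnn Y) (c := η * Y.card) (by positivity) (by
      calc ∑ x ∈ X, ∑ y ∈ Y, (if r x y then (1 : ℝ) else 0) = ec r X Y := by
            unfold ec
            refine Finset.sum_congr rfl fun x _ => Finset.sum_congr rfl fun y _ => ?_
            congr
        _ ≤ η * (X.card * Y.card) := hd
        _ = η * Y.card * X.card := by ring)
  have h1 : ec r T₁ Y ≤ 2 * (η * Y.card) * N := by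
    refine le_trans (le_of_eq ?_) hw₁
    unfold ec
    refine Finset.sum_congr rfl fun x _ => Finset.sum_congr rfl fun y _ => ?_
    congr
  obtain ⟨T₂, hT₂, hN₂, hG₂, hw₂⟩ := cover hN hY (w := fun x => ∑ y ∈ T₁, if r x y then (1 : ℝ) else 0)
    (hnn T₁) (c := 2 * η * N) (by positivity) (by
      calc ∑ x ∈ Y, ∑ y ∈ T₁, (if r x y then (1 : ℝ) else 0) = ec r Y T₁ := by
            unfold ec
            refine Finset.sum_congr rfl fun x _ => Finset.sum_congr rfl fun y _ => ?_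
            congr
        _ = ec r T₁ Y := ec_swap hr _ _
        _ ≤ 2 * (η * Y.card) * N := h1
        _ = 2 * η * N * Y.card := by ring)
  have h2 : ec r T₂ T₁ ≤ 2 * (2 * η * N) * N := by
    refine le_trans (le_of_eq ?_) hw₂
    unfold ec
    refine Finset.sum_congr rfl fun x _ => Finset.sum_congr rfl fun y _ => ?_
    congr
  have hdis : Disjoint T₁ T₂ := Finset.disjoint_of_subset_left hT₁
    (Finset.disjoint_of_subset_right hT₂ hXY)
  refine ⟨T₁ ∪ T₂, Finset.union_subset_union hT₁ hT₂, ?_, ?_⟩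
  · rw [Finset.card_union_of_disjoint hdis, hN₁, hN₂]
    ring
  · unfold Good at *
    rw [Finset.card_union_of_disjoint hdis, ec_union_left r hdis, ec_union_right r _ hdis,
      ec_union_right r _ hdis, ec_swap hr T₁ T₂]
    rw [hN₁] at hG₁ ⊢
    rw [hN₂] at hG₂ ⊢
    push_cast
    have h3 : (0 : ℝ) ≤ N := Nat.cast_nonneg _
    have h4 : ((1 / 2 : ℝ)) ^ (i + 1) = (1 / 2) * (1 / 2) ^ i := by ring
    rw [h4]
    nlinarith [hG₁, hG₂, h2]

/-- Nearly homogeneous pairs inside every subset of `U`. -/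
def HPair (r : V → V → Prop) (δ η : ℝ) (U : Finset V) : Prop :=
  ∀ S ⊆ U, 2 ≤ S.card → ∃ X ⊆ S, ∃ Y ⊆ S, Disjoint X Y ∧
    δ * S.card ≤ X.card ∧ δ * S.card ≤ Y.card ∧
    (ec r X Y ≤ η * (X.card * Y.card) ∨
      ec (fun x y => ¬ r x y) X Y ≤ η * (X.card * Y.card))

theorem exhaust {r : V → V → Prop} (hr : ∀ x y, r x y → r y x) {δ η : ℝ}
    (hδ : 0 < δ) (hδ1 : δ ≤ 1) (hη : 0 ≤ η) {U : Finset V} (H : HPair r δ η U) {s₀ : ℕ}
    (hs₀ : 1 ≤ s₀) (n : ℕ) : ∀ i j : ℕ, i + j = n → ∀ S ⊆ U, (2 / δ) ^ n * s₀ ≤ (S.card : ℝ) →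
    ∃ T ⊆ S, (T.card = 2 ^ i * s₀ ∧ Good r i η T) ∨
      (T.card = 2 ^ j * s₀ ∧ Good (fun x y => ¬ r x y) j η T) := by
  classical
  have hr' : ∀ x y, ¬ r x y → ¬ r y x := fun x y h h' => h (hr _ _ h')
  have hq : 2 ≤ 2 / δ := by
    rw [le_div_iff₀ hδ]
    linarith
  have hs : (1 : ℝ) ≤ s₀ := by exact_mod_cast hs₀
  have hbase : ∀ (t : V → V → Prop) (T : Finset V), Good t 0 η T := by
    intro t T
    unfold Good
    have h1 := ec_le t T T
    have h2 : (0 : ℝ) ≤ (T.card : ℝ) ^ 2 := by positivity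
    nlinarith
  have hsmall : ∀ (m : ℕ) (S : Finset V), (2 / δ) ^ m * s₀ ≤ (S.card : ℝ) → s₀ ≤ S.card := by
    intro m S h
    have h1 : (1 : ℝ) ≤ (2 / δ) ^ m := one_le_pow₀ (by linarith)
    have h2 : (s₀ : ℝ) ≤ S.card := le_trans (by nlinarith) h
    exact_mod_cast h2
  induction n with
  | zero =>
    intro i j hij S _ hS
    have hi : i = 0 := by omega
    subst hi
    obtain ⟨T, hT, hc⟩ := Finset.exists_subset_card_eq (hsmall 0 S hS)
    exact ⟨T, hT, Or.inl ⟨by simpa using hc, hbase r T⟩⟩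
  | succ n ih =>
    intro i j hij S hSU hS
    rcases Nat.eq_zero_or_pos i with hi | hi
    · subst hi
      obtain ⟨T, hT, hc⟩ := Finset.exists_subset_card_eq (hsmall _ S hS)
      exact ⟨T, hT, Or.inl ⟨by simpa using hc, hbase r T⟩⟩
    rcases Nat.eq_zero_or_pos j with hj | hj
    · subst hj
      obtain ⟨T, hT, hc⟩ := Finset.exists_subset_card_eq (hsmall _ S hS)
      exact ⟨T, hT, Or.inr ⟨by simpa using hc, hbase _ T⟩⟩
    obtain ⟨i, rfl⟩ : ∃ i', i = i' + 1 := ⟨i - 1, by omega⟩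
    obtain ⟨j, rfl⟩ : ∃ j', j = j' + 1 := ⟨j - 1, by omega⟩
    have hS2 : 2 ≤ S.card := by
      have h1 : (1 : ℝ) ≤ (2 / δ) ^ n := one_le_pow₀ (by linarith)
      have h2 : (2 : ℝ) ≤ (2 / δ) ^ (n + 1) * s₀ := by
        rw [pow_succ]
        nlinarith [mul_le_mul h1 hq (by norm_num) (by linarith)]
      have h3 : (2 : ℝ) ≤ S.card := h2.trans hS
      exact_mod_cast h3
    obtain ⟨X, hXS, Y, hYS, hXY, hX, hY, hhom⟩ := H S hSU hS2
    have hbig : ∀ Z : Finset V, δ * S.card ≤ Z.card → ∀ S' ⊆ Z, (Z.card : ℝ) / 2 ≤ S'.card →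
        (2 / δ) ^ n * s₀ ≤ (S'.card : ℝ) := by
      intro Z hZ S' _ hS'
      have h1 : δ * ((2 / δ) ^ (n + 1) * s₀) ≤ δ * S.card := mul_le_mul_of_nonneg_left hS hδ.le
      have h2 : δ * ((2 / δ) ^ (n + 1) * s₀) = 2 * ((2 / δ) ^ n * s₀) := by
        rw [pow_succ]
        field_simp
      linarith
    rcases hhom with hd | hd
    · -- sparse pair
      by_cases hdone : ∃ T ⊆ S, T.card = 2 ^ (j + 1) * s₀ ∧ Good (fun x y => ¬ r x y) (j + 1) η T
      · obtain ⟨T, hT, h1, h2⟩ := hdone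
        exact ⟨T, hT, Or.inr ⟨h1, h2⟩⟩
      · have hfam : ∀ Z ⊆ S, δ * S.card ≤ Z.card → ∀ S' ⊆ Z, (Z.card : ℝ) / 2 ≤ S'.card →
            ∃ T ⊆ S', T.card = 2 ^ i * s₀ ∧ Good r i η T := by
          intro Z hZS hZ S' hS'Z hS'
          obtain ⟨T, hT, h | h⟩ := ih i (j + 1) (by omega) S' ((hS'Z.trans hZS).trans hSU)
            (hbig Z hZ S' hS'Z hS')
          · exact ⟨T, hT, h⟩
          · exact absurd ⟨T, (hT.trans hS'Z).trans hZS, h⟩ hdone
        obtain ⟨T, hT, h1, h2⟩ := merge hr hη hXY hd (N := 2 ^ i * s₀) (i := i)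
          (Nat.one_le_iff_ne_zero.mpr (by positivity)) (hfam X hXS hX) (hfam Y hYS hY)
        exact ⟨T, hT.trans (Finset.union_subset hXS hYS), Or.inl ⟨by rw [h1]; ring, h2⟩⟩
    · by_cases hdone : ∃ T ⊆ S, T.card = 2 ^ (i + 1) * s₀ ∧ Good r (i + 1) η T
      · obtain ⟨T, hT, h1, h2⟩ := hdone
        exact ⟨T, hT, Or.inl ⟨h1, h2⟩⟩
      · have hfam : ∀ Z ⊆ S, δ * S.card ≤ Z.card → ∀ S' ⊆ Z, (Z.card : ℝ) / 2 ≤ S'.card →
            ∃ T ⊆ S', T.card = 2 ^ j * s₀ ∧ Good (fun x y => ¬ r x y) j η T := by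
          intro Z hZS hZ S' hS'Z hS'
          obtain ⟨T, hT, h | h⟩ := ih (i + 1) j (by omega) S' ((hS'Z.trans hZS).trans hSU)
            (hbig Z hZ S' hS'Z hS')
          · exact absurd ⟨T, (hT.trans hS'Z).trans hZS, h⟩ hdone
          · exact ⟨T, hT, h⟩
        obtain ⟨T, hT, h1, h2⟩ := merge hr' hη hXY hd (N := 2 ^ j * s₀) (i := j)
          (Nat.one_le_iff_ne_zero.mpr (by positivity)) (hfam X hXS hX) (hfam Y hYS hY)
        exact ⟨T, hT.trans (Finset.union_subset hXS hYS), Or.inr ⟨by rw [h1]; ring, h2⟩⟩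

end Pool.Agent.Lib.MP_b9b22b_co.Few.H68
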