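import Pool.Agent.Lib.MP_b9b22b_co.Few.H68.Trace

/-!
Halving the inhomogeneity, and independent sets in nearly empty sets.
-/

set_option autoImplicit false

open Finset Matrix

namespace Pool.Agent.Lib.MP_b9b22b_co.Few.H68

variable {V : Type*} [DecidableEq V]

/-- the loss of one stage -/
def Qf (m ℓ : ℕ) : ℕ := 2 * (2 * 4 ^ (m + 2)) ^ (2 * ℓ + 4)

theorem stage {s : V → V → Prop} (hs : ∀ x y, s x y → s y x) (hi : ∀ x, ¬ s x x)
    {k : ℕ} {W : Finset V}
    (hk : (Finset.univ.filter fun j => (AW_herm hs W).eigenvalues j ≤ 0).card ≤ k)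
    {ℓ m : ℕ} {g : ℝ} (hg : g = 2 + 8 * Real.sqrt (k * (1 / 2) ^ ℓ))
    (hm : ((1 - Real.exp (-1) / g) / (1 + Real.exp (-1) / g)) ^ m ≤ (1 / 2) ^ (ℓ + 6))
    (hW : Homog s ((1 / 2) ^ ℓ) W) {s₀ : ℕ} (hs₀ : 1 ≤ s₀) (hcard : Qf m ℓ * s₀ ≤ W.card) :
    ∃ T ⊆ W, s₀ ≤ T.card ∧ Homog s ((1 / 2) ^ (ℓ + 1)) T := by
  obtain ⟨U, hUW, hU, H⟩ := exists_half hs hi hk hW hg
  have hη : (0 : ℝ) < (1 / 2) ^ (ℓ + 5) := by positivity
  have H1 := H m ((1 / 2) ^ (ℓ + 5)) hη (by
    refine hm.trans (le_of_eq ?_)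
    rw [pow_succ]
    ring)
  have hcard' : (2 / (1 / 4 : ℝ) ^ (m + 2)) ^ (2 * ℓ + 4) * s₀ ≤ (U.card : ℝ) := by
    have h1 : 2 / (1 / 4 : ℝ) ^ (m + 2) = 2 * 4 ^ (m + 2) := by
      rw [one_div, inv_pow, div_inv_eq_mul]
    rw [h1]
    have h2 : ((Qf m ℓ * s₀ : ℕ) : ℝ) ≤ W.card := by exact_mod_cast hcard
    unfold Qf at h2
    push_cast at h2
    linarith
  have hδ1 : (1 / 4 : ℝ) ^ (m + 2) ≤ 1 := pow_le_one₀ (by norm_num) (by norm_num)
  obtain ⟨T, hT, h⟩ := exhaust hs (by positivity) hδ1 hη.le H1 hs₀ (2 * ℓ + 4) (ℓ + 2) (ℓ + 2)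
    (by ring) U (Finset.Subset.refl _) hcard'
  have hpw : 1 ≤ 2 ^ (ℓ + 2) := Nat.one_le_two_pow
  have hsum : (1 / 2 : ℝ) ^ (ℓ + 2) + 4 * (1 / 2) ^ (ℓ + 5) ≤ (1 / 2) ^ (ℓ + 1) := by
    have h1 : (0 : ℝ) < (1 / 2) ^ ℓ := by positivity
    have h2 : (1 / 2 : ℝ) ^ (ℓ + 2) = (1 / 2) ^ ℓ * (1 / 4) := by ring
    have h3 : (1 / 2 : ℝ) ^ (ℓ + 5) = (1 / 2) ^ ℓ * (1 / 32) := by ring
    have h4 : (1 / 2 : ℝ) ^ (ℓ + 1) = (1 / 2) ^ ℓ * (1 / 2) := by ring
    rw [h2, h3, h4]
    linarith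
  refine ⟨T, hT.trans hUW, ?_, ?_⟩
  · rcases h with ⟨h, _⟩ | ⟨h, _⟩ <;> rw [h] <;> exact Nat.le_mul_of_pos_left _ (by positivity)
  · rcases h with ⟨_, h⟩ | ⟨_, h⟩
    · left
      exact h.trans (mul_le_mul_of_nonneg_right hsum (by positivity))
    · right
      exact h.trans (mul_le_mul_of_nonneg_right hsum (by positivity))

theorem stages [Fintype V] {s : V → V → Prop} (hs : ∀ x y, s x y → s y x) (hi : ∀ x, ¬ s x x)
    {k : ℕ}
    (hk : ∀ W : Finset V,
      (Finset.univ.filter fun j => (AW_herm hs W).eigenvalues j ≤ 0).card ≤ k)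
    {mm : ℕ → ℕ} {g : ℕ → ℝ} (hg : ∀ ℓ, g ℓ = 2 + 8 * Real.sqrt (k * (1 / 2) ^ ℓ))
    (hm : ∀ ℓ, ((1 - Real.exp (-1) / g ℓ) / (1 + Real.exp (-1) / g ℓ)) ^ mm ℓ ≤
      (1 / 2) ^ (ℓ + 6)) (L : ℕ) :
    ∀ s₀ : ℕ, 1 ≤ s₀ → (∏ ℓ ∈ Finset.range L, Qf (mm (ℓ + 1)) (ℓ + 1)) * s₀ ≤ Fintype.card V →
      ∃ T : Finset V, s₀ ≤ T.card ∧ Homog s ((1 / 2) ^ (L + 1)) T := by
  induction L with
  | zero =>
    intro s₀ _ hcard
    refine ⟨Finset.univ, by simpa using hcard, ?_⟩
    have h1 := ec_add_not s Finset.univ Finset.univ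
    unfold Homog
    by_contra hcon
    push Not at hcon
    obtain ⟨h2, h3⟩ := hcon
    rw [zero_add, pow_one] at h2 h3
    nlinarith
  | succ L ih =>
    intro s₀ hs₀ hcard
    have hQ : 1 ≤ Qf (mm (L + 1)) (L + 1) := by
      unfold Qf
      exact Nat.one_le_iff_ne_zero.mpr (by positivity)
    obtain ⟨W, hW, hhom⟩ := ih (Qf (mm (L + 1)) (L + 1) * s₀)
      (Nat.one_le_iff_ne_zero.mpr (by positivity)) (by
        rw [Finset.prod_range_succ] at hcard
        rw [← mul_assoc]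
        exact hcard)
    obtain ⟨T, _, hT, hhomT⟩ := stage hs hi (hk W) (hg (L + 1)) (hm (L + 1)) hhom hs₀ hW
    exact ⟨T, hT, hhomT⟩

open Classical in
theorem greedy {r : V → V → Prop} (hr : ∀ x y, r x y → r y x) {d : ℝ} (hd0 : 0 ≤ d) (j : ℕ) :
    ∀ T : Finset V, (∀ x ∈ T, ∑ y ∈ T, (if r x y then (1 : ℝ) else 0) ≤ d) →
      (j : ℝ) * (d + 1) ≤ T.card → ∃ I ⊆ T, I.card = j ∧ ∀ x ∈ I, ∀ y ∈ I, x ≠ y → ¬ r x y := by
  induction j with
  | zero =>
    intro T _ _
    exact ⟨∅, Finset.empty_subset _, rfl, by simp⟩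
  | succ j ih =>
    intro T hT hcard
    push_cast at hcard
    have hpos : (0 : ℝ) < T.card := by nlinarith [(Nat.cast_nonneg j : (0 : ℝ) ≤ j)]
    have hne : T.Nonempty := by
      rw [← Finset.card_pos]
      exact_mod_cast hpos
    obtain ⟨x, hx⟩ := hne
    set T' := T.filter (fun y => y ≠ x ∧ ¬ r x y) with hT'
    have hsub : T' ⊆ T := Finset.filter_subset _ _
    have hc : (T.card : ℝ) ≤ T'.card + 1 + d := by
      have h1 : T ⊆ T' ∪ {x} ∪ T.filter (fun y => r x y) := by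
        intro y hy
        simp only [Finset.mem_union, Finset.mem_singleton, hT', Finset.mem_filter]
        by_cases h2 : r x y
        · right; exact ⟨hy, h2⟩
        · by_cases h3 : y = x
          · left; right; exact h3
          · left; left; exact ⟨hy, h3, h2⟩
      have h2 : T.card ≤ T'.card + 1 + (T.filter (fun y => r x y)).card := by
        refine (Finset.card_le_card h1).trans ?_
        refine (Finset.card_union_le _ _).trans ?_
        refine Nat.add_le_add_right ?_ _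
        exact (Finset.card_union_le _ _).trans (by simp)
      have h3 : ((T.filter (fun y => r x y)).card : ℝ) ≤ d := by
        have h4 := hT x hx
        rw [Finset.sum_ite, Finset.sum_const_zero, add_zero, Finset.sum_const, nsmul_eq_mul,
          mul_one] at h4
        exact h4
      have h5 : (T.card : ℝ) ≤ T'.card + 1 + (T.filter (fun y => r x y)).card := by
        exact_mod_cast h2
      linarith
    obtain ⟨I, hI, hIc, hIr⟩ := ih T' (fun y hy => by
      refine le_trans ?_ (hT y (hsub hy))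
      refine Finset.sum_le_sum_of_subset_of_nonneg hsub fun z _ _ => ?_
      split_ifs <;> norm_num) (by linarith)
    have hxI : x ∉ I := by
      intro h
      have := hI h
      rw [hT', Finset.mem_filter] at this
      exact this.2.1 rfl
    refine ⟨insert x I, ?_, ?_, ?_⟩
    · exact Finset.insert_subset hx (hI.trans hsub)
    · rw [Finset.card_insert_of_notMem hxI, hIc]
    · intro y hy z hz hyz
      rw [Finset.mem_insert] at hy hz
      rcases hy with hy | hy
      · rcases hz with hz | hz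
        · exact absurd (hy.trans hz.symm) hyz
        · have h2 := hI hz
          rw [hT', Finset.mem_filter] at h2
          rw [hy]
          exact h2.2.2
      · rcases hz with hz | hz
        · have h2 := hI hy
          rw [hT', Finset.mem_filter] at h2
          rw [hz]
          exact fun h => h2.2.2 (hr _ _ h)
        · exact hIr y hy z hz hyz

theorem indep_of_sparse {r : V → V → Prop} (hr : ∀ x y, r x y → r y x) {T : Finset V} {j : ℕ}
    {ε : ℝ} (hε : 8 * (j + 1 : ℝ) * ε ≤ 1) (h : ec r T T ≤ ε * (T.card : ℝ) ^ 2)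
    (hT : 8 * (j + 1) ≤ T.card) :
    ∃ I ⊆ T, I.card = j ∧ ∀ x ∈ I, ∀ y ∈ I, x ≠ y → ¬ r x y := by
  classical
  have hTr : 8 * ((j : ℝ) + 1) ≤ T.card := by exact_mod_cast hT
  have hj0 : (0 : ℝ) ≤ j := Nat.cast_nonneg j
  have hTp : (0 : ℝ) < T.card := by linarith
  set d : ℝ := T.card / (4 * (j + 1)) with hd
  have hd0 : 0 < d := by positivity
  have hdj : d * (4 * (j + 1)) = T.card := by
    rw [hd]
    field_simp
  set T' := T.filter (fun x => ∑ y ∈ T, (if r x y then (1 : ℝ) else 0) ≤ d) with hT'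
  have hsub : T' ⊆ T := Finset.filter_subset _ _
  have h1 : ((T \ T').card : ℝ) * d ≤ ε * (T.card : ℝ) ^ 2 := by
    refine le_trans ?_ h
    calc ((T \ T').card : ℝ) * d = ∑ _x ∈ T \ T', d := by rw [Finset.sum_const, nsmul_eq_mul]
      _ ≤ ∑ x ∈ T \ T', ∑ y ∈ T, (if r x y then (1 : ℝ) else 0) := by
          refine Finset.sum_le_sum fun x hx => ?_
          rw [Finset.mem_sdiff, hT', Finset.mem_filter, not_and] at hx
          exact (not_le.mp (hx.2 hx.1)).le
      _ ≤ ∑ x ∈ T, ∑ y ∈ T, (if r x y then (1 : ℝ) else 0) := by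
          refine Finset.sum_le_sum_of_subset_of_nonneg Finset.sdiff_subset fun x _ _ =>
            Finset.sum_nonneg fun y _ => ?_
          split_ifs <;> norm_num
      _ = ec r T T := rfl
  have h2 : ((T \ T').card : ℝ) ≤ T.card / 2 := by
    have h3 : ε * (T.card : ℝ) ^ 2 ≤ (T.card / 2) * d := by
      have h4 : ε * (T.card : ℝ) ^ 2 = ε * (4 * (j + 1)) * (d * T.card) := by
        have : (T.card : ℝ) ^ 2 = (d * (4 * (j + 1))) * T.card := by rw [hdj]; ring
        rw [this]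
        ring
      rw [h4]
      have h5 : ε * (4 * (j + 1)) ≤ 1 / 2 := by linarith
      have h6 : 0 ≤ d * T.card := by positivity
      nlinarith
    exact le_of_mul_le_mul_right (h1.trans h3) hd0
  have h3 : ((T \ T').card : ℝ) + T'.card = T.card := by
    exact_mod_cast Finset.card_sdiff_add_card_eq_card hsub
  obtain ⟨I, hI, h4, h5⟩ := greedy hr hd0.le j T' (fun x hx => by
      refine le_trans ?_ (Finset.mem_filter.mp hx).2
      refine Finset.sum_le_sum_of_subset_of_nonneg hsub fun z _ _ => ?_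
      split_ifs <;> norm_num) (by
      have h6 : (j : ℝ) * d ≤ T.card / 4 := by
        have : (T.card : ℝ) / 4 = d * (j + 1) := by linarith
        rw [this]
        nlinarith
      linarith)
  exact ⟨I, hI.trans hsub, h4, h5⟩

end Pool.Agent.Lib.MP_b9b22b_co.Few.H68
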