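import Mathlib
import Pool.Agent.Lib.MP_b9b22b_co.Few.H68.Stage

/-!
The product of the losses is `exp (O (√k))`.
-/

set_option autoImplicit false

open Finset

namespace Pool.Agent.Lib.MP_b9b22b_co.Few.H68

/-- radius at level `ℓ` -/
noncomputable def gg (k ℓ : ℕ) : ℝ := 2 + 8 * Real.sqrt (k * (1 / 2) ^ ℓ)

/-- number of rounding steps at level `ℓ` -/
noncomputable def mm (k ℓ : ℕ) : ℕ := ⌈2 * ((ℓ : ℝ) + 6) * gg k ℓ⌉₊

theorem gg_ge (k ℓ : ℕ) : 2 ≤ gg k ℓ := by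
  unfold gg
  have := Real.sqrt_nonneg ((k : ℝ) * (1 / 2) ^ ℓ)
  linarith

theorem mm_ok (k ℓ : ℕ) :
    ((1 - Real.exp (-1) / gg k ℓ) / (1 + Real.exp (-1) / gg k ℓ)) ^ mm k ℓ ≤ (1 / 2) ^ (ℓ + 6) := by
  have hg := gg_ge k ℓ
  have hg0 : 0 < gg k ℓ := by linarith
  set c : ℝ := Real.exp (-1) / gg k ℓ with hc
  have hc0 : 0 < c := by positivity
  have he1 : Real.exp (-1) ≤ 1 := Real.exp_le_one_iff.mpr (by norm_num)
  have hc1 : c ≤ 1 := by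
    rw [hc, div_le_one hg0]
    linarith
  have h1 : (1 - c) / (1 + c) ≤ Real.exp (-c) := by
    have h2 : 1 - c ≤ Real.exp (-c) := by
      have := Real.add_one_le_exp (-c)
      linarith
    refine le_trans (div_le_self (by linarith) (by linarith)) h2
  have h0 : 0 ≤ (1 - c) / (1 + c) := div_nonneg (by linarith) (by linarith)
  have hm : 2 * ((ℓ : ℝ) + 6) * gg k ℓ ≤ mm k ℓ := Nat.le_ceil _
  have h2 : ((ℓ : ℝ) + 6) * Real.log 2 ≤ (mm k ℓ : ℝ) * c := by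
    have h3 : 2 * ((ℓ : ℝ) + 6) * Real.exp (-1) ≤ (mm k ℓ : ℝ) * c := by
      have h4 : 2 * ((ℓ : ℝ) + 6) * gg k ℓ * c ≤ (mm k ℓ : ℝ) * c :=
        mul_le_mul_of_nonneg_right hm hc0.le
      have h5 : 2 * ((ℓ : ℝ) + 6) * gg k ℓ * c = 2 * ((ℓ : ℝ) + 6) * Real.exp (-1) := by
        rw [hc]
        field_simp
      linarith
    have h4 : Real.log 2 ≤ 2 * Real.exp (-1) := by
      have h5 := Real.log_two_lt_d9
      have h6 := Real.exp_one_lt_d9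
      have h7 : Real.exp (-1) * Real.exp 1 = 1 := by
        rw [← Real.exp_add]
        norm_num
      have h8 := Real.exp_pos (-1)
      nlinarith
    have h5 : (0 : ℝ) ≤ (ℓ : ℝ) + 6 := by positivity
    nlinarith
  calc ((1 - c) / (1 + c)) ^ mm k ℓ ≤ (Real.exp (-c)) ^ mm k ℓ := pow_le_pow_left₀ h0 h1 _
    _ = Real.exp (-((mm k ℓ : ℝ) * c)) := by
        rw [← Real.exp_nat_mul]
        ring_nf
    _ ≤ Real.exp (-(((ℓ : ℝ) + 6) * Real.log 2)) := Real.exp_le_exp.mpr (by linarith)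
    _ = (1 / 2) ^ (ℓ + 6) := by
        have h3 : -(((ℓ : ℝ) + 6) * Real.log 2) = ((ℓ + 6 : ℕ) : ℝ) * Real.log (1 / 2) := by
          rw [one_div, Real.log_inv]
          push_cast
          ring
        rw [h3, Real.exp_nat_mul, Real.exp_log (by norm_num)]

theorem Qf_le (k ℓ : ℕ) :
    (Qf (mm k ℓ) ℓ : ℝ) ≤ Real.exp (10 * ((ℓ : ℝ) + 6) ^ 2 * gg k ℓ) := by
  have hg := gg_ge k ℓ
  have hm : (mm k ℓ : ℝ) ≤ 2 * ((ℓ : ℝ) + 6) * gg k ℓ + 1 := (Nat.ceil_lt_add_one (by positivity)).le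
  have h2 : (2 : ℝ) ≤ Real.exp 1 := by
    have := Real.add_one_le_exp (1 : ℝ)
    linarith
  have h4 : (4 : ℝ) ≤ Real.exp 2 := by
    have h5 : Real.exp 2 = Real.exp 1 * Real.exp 1 := by
      rw [← Real.exp_add]
      norm_num
    rw [h5]
    nlinarith
  have h5 : (4 : ℝ) ^ (mm k ℓ + 2) ≤ Real.exp (2 * ((mm k ℓ : ℝ) + 2)) := by
    calc (4 : ℝ) ^ (mm k ℓ + 2) ≤ (Real.exp 2) ^ (mm k ℓ + 2) := pow_le_pow_left₀ (by norm_num) h4 _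
      _ = _ := by
        rw [← Real.exp_nat_mul]
        push_cast
        ring_nf
  have h6 : (2 : ℝ) * 4 ^ (mm k ℓ + 2) ≤ Real.exp (1 + 2 * ((mm k ℓ : ℝ) + 2)) := by
    rw [Real.exp_add]
    exact mul_le_mul h2 h5 (by positivity) (Real.exp_pos _).le
  have h7 : ((2 : ℝ) * 4 ^ (mm k ℓ + 2)) ^ (2 * ℓ + 4) ≤
      Real.exp ((2 * (ℓ : ℝ) + 4) * (1 + 2 * ((mm k ℓ : ℝ) + 2))) := by
    calc ((2 : ℝ) * 4 ^ (mm k ℓ + 2)) ^ (2 * ℓ + 4)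
        ≤ (Real.exp (1 + 2 * ((mm k ℓ : ℝ) + 2))) ^ (2 * ℓ + 4) :=
          pow_le_pow_left₀ (by positivity) h6 _
      _ = _ := by
        rw [← Real.exp_nat_mul]
        push_cast
        ring_nf
  have h8 : (Qf (mm k ℓ) ℓ : ℝ) ≤
      Real.exp (1 + (2 * (ℓ : ℝ) + 4) * (1 + 2 * ((mm k ℓ : ℝ) + 2))) := by
    unfold Qf
    push_cast
    rw [Real.exp_add]
    exact mul_le_mul h2 h7 (by positivity) (Real.exp_pos _).le
  refine h8.trans (Real.exp_le_exp.mpr ?_)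
  have hl : (0 : ℝ) ≤ ℓ := Nat.cast_nonneg _
  set a : ℝ := (ℓ : ℝ) + 6 with ha
  have ha6 : 6 ≤ a := by linarith
  have h9 : (2 * (ℓ : ℝ) + 4) * (1 + 2 * ((mm k ℓ : ℝ) + 2)) ≤ (2 * a) * (7 + 4 * a * gg k ℓ) := by
    apply mul_le_mul _ _ _ (by linarith)
    · linarith
    · linarith
    · have : (0 : ℝ) ≤ mm k ℓ := Nat.cast_nonneg _
      linarith
  have h10 : 1 + (2 * a) * (7 + 4 * a * gg k ℓ) ≤ 10 * a ^ 2 * gg k ℓ := by
    have h11 : 1 + 14 * a ≤ 4 * a ^ 2 := by nlinarith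
    have h12 : 4 * a ^ 2 ≤ 2 * a ^ 2 * gg k ℓ := by nlinarith [sq_nonneg a]
    nlinarith
  linarith

/-- the series -/
noncomputable def SS : ℝ := ∑' ℓ : ℕ, ((ℓ : ℝ) + 6) ^ 2 * (Real.sqrt (1 / 2)) ^ ℓ

theorem sqrt_half_lt : Real.sqrt (1 / 2) < 1 := by
  rw [Real.sqrt_lt' one_pos]
  norm_num

theorem SS_summable : Summable fun ℓ : ℕ => ((ℓ : ℝ) + 6) ^ 2 * (Real.sqrt (1 / 2)) ^ ℓ := by
  have h0 : ‖Real.sqrt (1 / 2)‖ < 1 := by
    rw [Real.norm_eq_abs, abs_of_nonneg (Real.sqrt_nonneg _)]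
    exact sqrt_half_lt
  have h1 := summable_pow_mul_geometric_of_norm_lt_one 2 h0
  have h2 := summable_pow_mul_geometric_of_norm_lt_one 1 h0
  have h3 := summable_geometric_of_norm_lt_one h0
  have h4 := (h1.add (h2.mul_left 12)).add (h3.mul_left 36)
  refine h4.congr fun ℓ => ?_
  ring

theorem SS_nonneg : 0 ≤ SS := by
  unfold SS
  exact tsum_nonneg fun ℓ => mul_nonneg (sq_nonneg _) (pow_nonneg (Real.sqrt_nonneg _) _)

theorem prod_le {K L : ℕ} (hL : (2 : ℝ) ^ L ≤ 24 * K) :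
    ((∏ ℓ ∈ Finset.range L, Qf (mm K (ℓ + 1)) (ℓ + 1) : ℕ) : ℝ) ≤
      Real.exp (180 * SS * Real.sqrt K) := by
  have hterm : ∀ ℓ, ℓ ≤ L → 10 * ((ℓ : ℝ) + 6) ^ 2 * gg K ℓ ≤
      180 * Real.sqrt K * (((ℓ : ℝ) + 6) ^ 2 * (Real.sqrt (1 / 2)) ^ ℓ) := by
    intro ℓ hℓ
    have h1 : Real.sqrt ((K : ℝ) * (1 / 2) ^ ℓ) = Real.sqrt K * (Real.sqrt (1 / 2)) ^ ℓ := by
      have h0 : ((1 : ℝ) / 2) ^ ℓ = ((Real.sqrt (1 / 2)) ^ ℓ) ^ 2 := by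
        rw [← pow_mul, mul_comm, pow_mul, Real.sq_sqrt (by norm_num)]
      rw [Real.sqrt_mul (Nat.cast_nonneg _), h0,
        Real.sqrt_sq (pow_nonneg (Real.sqrt_nonneg _) _)]
    have h2 : (1 : ℝ) ≤ 24 * ((K : ℝ) * (1 / 2) ^ ℓ) := by
      have h3 : (2 : ℝ) ^ ℓ ≤ 24 * K := (pow_le_pow_right₀ (by norm_num) hℓ).trans hL
      have h4 : (1 / 2 : ℝ) ^ ℓ * 2 ^ ℓ = 1 := by rw [← mul_pow]; norm_num
      have h5 : (0 : ℝ) < (1 / 2) ^ ℓ := by positivity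
      nlinarith
    have h3 : (1 : ℝ) ≤ 5 * Real.sqrt ((K : ℝ) * (1 / 2) ^ ℓ) := by
      have h4 : (1 / 5 : ℝ) ≤ Real.sqrt ((K : ℝ) * (1 / 2) ^ ℓ) := by
        apply Real.le_sqrt_of_sq_le
        linarith
      linarith
    have h4 : gg K ℓ ≤ 18 * Real.sqrt ((K : ℝ) * (1 / 2) ^ ℓ) := by
      unfold gg
      linarith
    have h5 : (0 : ℝ) ≤ 10 * ((ℓ : ℝ) + 6) ^ 2 := by positivity
    calc 10 * ((ℓ : ℝ) + 6) ^ 2 * gg K ℓ
        ≤ 10 * ((ℓ : ℝ) + 6) ^ 2 * (18 * Real.sqrt ((K : ℝ) * (1 / 2) ^ ℓ)) :=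
          mul_le_mul_of_nonneg_left h4 h5
      _ = _ := by rw [h1]; ring
  push_cast
  calc ∏ ℓ ∈ Finset.range L, (Qf (mm K (ℓ + 1)) (ℓ + 1) : ℝ)
      ≤ ∏ ℓ ∈ Finset.range L, Real.exp (180 * Real.sqrt K *
          ((((ℓ + 1 : ℕ) : ℝ) + 6) ^ 2 * (Real.sqrt (1 / 2)) ^ (ℓ + 1))) := by
        refine Finset.prod_le_prod (fun _ _ => Nat.cast_nonneg _) fun ℓ hℓ => ?_
        refine (Qf_le K (ℓ + 1)).trans (Real.exp_le_exp.mpr ?_)
        exact hterm (ℓ + 1) (Finset.mem_range.mp hℓ)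
    _ = Real.exp (∑ ℓ ∈ Finset.range L, 180 * Real.sqrt K *
          ((((ℓ + 1 : ℕ) : ℝ) + 6) ^ 2 * (Real.sqrt (1 / 2)) ^ (ℓ + 1))) :=
        (Real.exp_sum _ _).symm
    _ ≤ Real.exp (180 * SS * Real.sqrt K) := by
        apply Real.exp_le_exp.mpr
        rw [← Finset.mul_sum]
        have h1 : ∑ ℓ ∈ Finset.range L,
            ((((ℓ + 1 : ℕ) : ℝ) + 6) ^ 2 * (Real.sqrt (1 / 2)) ^ (ℓ + 1)) ≤ SS := by
          have h2 : ∑ ℓ ∈ Finset.range L,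
              ((((ℓ + 1 : ℕ) : ℝ) + 6) ^ 2 * (Real.sqrt (1 / 2)) ^ (ℓ + 1)) ≤
              ∑ ℓ ∈ Finset.range (L + 1), (((ℓ : ℝ) + 6) ^ 2 * (Real.sqrt (1 / 2)) ^ ℓ) := by
            rw [Finset.sum_range_succ']
            have : (0 : ℝ) ≤ (((0 : ℕ) : ℝ) + 6) ^ 2 * (Real.sqrt (1 / 2)) ^ 0 := by positivity
            linarith
          refine h2.trans ?_
          exact SS_summable.sum_le_tsum _ fun ℓ _ =>
            mul_nonneg (sq_nonneg _) (pow_nonneg (Real.sqrt_nonneg _) _)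
        have h3 : (0 : ℝ) ≤ 180 * Real.sqrt K := by positivity
        nlinarith

theorem final_size {K : ℕ} (hK : 1 ≤ K) :
    ((8 * (K + 2) : ℕ) : ℝ) ≤ Real.exp (10 * Real.sqrt K) := by
  have hKr : (1 : ℝ) ≤ K := by exact_mod_cast hK
  set x := Real.sqrt K with hx
  have hx1 : 1 ≤ x := by
    rw [hx]
    exact Real.one_le_sqrt.mpr hKr
  have hx2 : x ^ 2 = K := Real.sq_sqrt (by linarith)
  have h1 : (8 * (K + 2) : ℝ) ≤ 24 * x ^ 2 := by rw [hx2]; linarith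
  have h2 : 5 * x ≤ Real.exp (5 * x) := by
    have := Real.add_one_le_exp (5 * x)
    linarith
  have h3 : Real.exp (10 * x) = Real.exp (5 * x) * Real.exp (5 * x) := by
    rw [← Real.exp_add]
    ring_nf
  push_cast
  rw [h3]
  nlinarith

end Pool.Agent.Lib.MP_b9b22b_co.Few.H68
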