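import Pool.Agent.Lib.MP_b9b22b_co.Few.Count
import Pool.Agent.Lib.MP_b9b22b_co.Few.H68.Num

/-!
Every graph on `n ≥ exp (C √K)` vertices has at least `K` nonpositive eigenvalues.
-/

set_option autoImplicit false

open Finset Matrix

namespace Pool.Agent.Lib.MP_b9b22b_co.Few.H68

open Pool.Agent.Lib.MP_b9b22b_co.Few

section

variable {V : Type*} [Fintype V] [DecidableEq V]

theorem nu_nonneg_indep {A : Matrix V V ℝ} (hA : A.IsHermitian) {K : ℕ} (f : Fin K → V)
    (hf : Function.Injective f) (h : ∀ i j, A (f i) (f j) = 0) : K ≤ nu hA := by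
  refine le_trans ?_ (nu_submatrix_le hA f hf)
  refine nu_ge (hA.submatrix f) (LinearMap.id) (fun a b h => h) fun a => ?_
  refine le_of_eq (Finset.sum_eq_zero fun x _ => Finset.sum_eq_zero fun y _ => ?_)
  rw [Matrix.submatrix_apply, h, zero_mul]

theorem nu_clique {A : Matrix V V ℝ} (hA : A.IsHermitian) {K : ℕ} (f : Fin (K + 1) → V)
    (hf : Function.Injective f) (h : ∀ i j, A (f i) (f j) = if i = j then 0 else 1) :
    K ≤ nu hA := by
  refine le_trans ?_ (nu_submatrix_le hA f hf)
  let L : (Fin K → ℝ) →ₗ[ℝ] (Fin (K + 1) → ℝ) :=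
    { toFun := fun a => Fin.cons (-∑ i, a i) a
      map_add' := fun a b => by
        funext x
        refine Fin.cases ?_ (fun i => ?_) x
        · simp [Finset.sum_add_distrib]
          ring
        · simp
      map_smul' := fun c a => by
        funext x
        refine Fin.cases ?_ (fun i => ?_) x
        · simp [Finset.mul_sum]
        · simp }
  have hL0 : ∀ a, L a 0 = -∑ i, a i := fun a => rfl
  have hLs : ∀ a (i : Fin K), L a i.succ = a i := fun a i => rfl
  refine nu_ge (hA.submatrix f) L ?_ fun a => ?_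
  · intro a b hab
    funext i
    rw [← hLs a i, ← hLs b i, hab]
  · have hsum : ∑ x, L a x = 0 := by
      rw [Fin.sum_univ_succ, hL0]
      simp only [hLs]
      ring
    have h1 : ∑ x, ∑ y, (A.submatrix f f) x y * (L a x * L a y) =
        (∑ x, L a x) * (∑ y, L a y) - ∑ x, L a x * L a x := by
      rw [Finset.sum_mul_sum, ← Finset.sum_sub_distrib]
      refine Finset.sum_congr rfl fun x _ => ?_
      rw [eq_sub_iff_add_eq]
      calc ∑ y, (A.submatrix f f) x y * (L a x * L a y) + L a x * L a x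
          = ∑ y, ((A.submatrix f f) x y * (L a x * L a y) + if x = y then L a x * L a y else 0) := by
            rw [Finset.sum_add_distrib]
            simp
        _ = ∑ y, L a x * L a y := by
            refine Finset.sum_congr rfl fun y _ => ?_
            rw [Matrix.submatrix_apply, h]
            by_cases hxy : x = y
            · rw [if_pos hxy, if_pos hxy]
              ring
            · rw [if_neg hxy, if_neg hxy]
              ring
    rw [h1, hsum]
    have h2 : 0 ≤ ∑ x, L a x * L a x := Finset.sum_nonneg fun x _ => mul_self_nonneg _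
    linarith

open Classical in
theorem exists_enum {I : Finset V} {K : ℕ} (hI : I.card = K) :
    ∃ f : Fin K → V, Function.Injective f ∧ ∀ i, f i ∈ I := by
  subst hI
  exact ⟨fun i => (I.equivFin.symm i : V), fun i j h =>
    I.equivFin.symm.injective (Subtype.ext h), fun i => (I.equivFin.symm i).2⟩

end

/-- The constant. -/
noncomputable def CC : ℝ := 180 * SS + 10

theorem CC_pos : 0 < CC := by
  unfold CC
  have := SS_nonneg
  linarith

open Classical in
theorem few_nu {V : Type*} [Fintype V] [DecidableEq V] (G : SimpleGraph V) {K : ℕ}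
    (hK : 1 ≤ K) (hn : Real.exp (CC * Real.sqrt K) ≤ Fintype.card V) :
    K ≤ nu (adj_isHermitian G) := by
  by_contra hcon
  push Not at hcon
  have hs : ∀ x y, G.Adj x y → G.Adj y x := fun x y h => h.symm
  have hi : ∀ x, ¬ G.Adj x x := fun x => G.loopless.irrefl x
  have hk : ∀ W : Finset V,
      (Finset.univ.filter fun j => (AW_herm hs W).eigenvalues j ≤ 0).card ≤ K := by
    intro W
    have h1 : nu ((adj_isHermitian G).submatrix (Subtype.val : W → V)) ≤ nu (adj_isHermitian G) :=
      nu_submatrix_le (adj_isHermitian G) (Subtype.val : W → V) Subtype.val_injective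
    have h2 : (G.adjMatrix ℝ).submatrix (Subtype.val : W → V) (Subtype.val : W → V) =
        AW G.Adj W := by
      ext x y
      simp [AW, SimpleGraph.adjMatrix_apply]
    have h3 : (Finset.univ.filter fun j => (AW_herm hs W).eigenvalues j ≤ 0).card =
        nu ((adj_isHermitian G).submatrix (Subtype.val : W → V)) := by
      unfold nu
      congr! 3
    rw [h3]
    exact h1.trans hcon.le
  -- the level
  have hKr : (1 : ℝ) ≤ K := by exact_mod_cast hK
  obtain ⟨L, hL1, hL2⟩ : ∃ L : ℕ, 8 * (K + 2) ≤ 2 ^ (L + 1) ∧ 2 ^ L ≤ 8 * (K + 2) := by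
    have hex : ∃ L : ℕ, 8 * (K + 2) ≤ 2 ^ (L + 1) :=
      ⟨8 * (K + 2), (Nat.lt_two_pow_self.le).trans (Nat.pow_le_pow_right (by norm_num) (by omega))⟩
    refine ⟨Nat.find hex, Nat.find_spec hex, ?_⟩
    rcases Nat.eq_zero_or_pos (Nat.find hex) with h0 | h0
    · rw [h0]
      omega
    · have h1 := Nat.find_min hex (m := Nat.find hex - 1) (by omega)
      rw [Nat.sub_add_cancel h0] at h1
      omega
  have hL24 : (2 : ℝ) ^ L ≤ 24 * K := by
    have h1 : ((2 ^ L : ℕ) : ℝ) ≤ ((8 * (K + 2) : ℕ) : ℝ) := by exact_mod_cast hL2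
    push_cast at h1
    linarith
  have hsize : (∏ ℓ ∈ Finset.range L, Qf (mm K (ℓ + 1)) (ℓ + 1)) * (8 * (K + 2)) ≤
      Fintype.card V := by
    have h1 := prod_le hL24
    have h2 := final_size hK
    have h3 : (((∏ ℓ ∈ Finset.range L, Qf (mm K (ℓ + 1)) (ℓ + 1)) * (8 * (K + 2)) : ℕ) : ℝ) ≤
        Fintype.card V := by
      refine le_trans ?_ hn
      rw [Nat.cast_mul]
      have h4 : CC * Real.sqrt K = 180 * SS * Real.sqrt K + 10 * Real.sqrt K := by
        unfold CC
        ring
      rw [h4, Real.exp_add]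
      exact mul_le_mul h1 h2 (Nat.cast_nonneg _) (Real.exp_pos _).le
    exact_mod_cast h3
  obtain ⟨T, hTc, hT⟩ := stages hs hi hk (g := gg K) (fun ℓ => rfl) (mm_ok K) L
    (8 * (K + 2)) (by omega) hsize
  have hε : 8 * (((K + 1 : ℕ) : ℝ) + 1) * (1 / 2) ^ (L + 1) ≤ 1 := by
    have h1 : ((8 * (K + 2) : ℕ) : ℝ) ≤ ((2 ^ (L + 1) : ℕ) : ℝ) := by exact_mod_cast hL1
    push_cast at h1 ⊢
    have h2 : (1 / 2 : ℝ) ^ (L + 1) * 2 ^ (L + 1) = 1 := by rw [← mul_pow]; norm_num
    have h3 : (0 : ℝ) < (1 / 2) ^ (L + 1) := by positivity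
    nlinarith
  rcases hT with hT | hT
  · obtain ⟨I, _, hI, hI2⟩ := indep_of_sparse hs hε hT (by omega)
    obtain ⟨f, hf, hfI⟩ := exists_enum hI
    have h1 : K + 1 ≤ nu (adj_isHermitian G) := nu_nonneg_indep (adj_isHermitian G) f hf
      (fun i j => by
        rw [SimpleGraph.adjMatrix_apply]
        by_cases hij : f i = f j
        · rw [hij]
          simp
        · rw [if_neg (hI2 _ (hfI i) _ (hfI j) hij)])
    omega
  · obtain ⟨I, _, hI, hI2⟩ := indep_of_sparse (r := fun x y => ¬ G.Adj x y)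
      (fun x y h h' => h (hs _ _ h')) hε hT (by omega)
    obtain ⟨f, hf, hfI⟩ := exists_enum hI
    have h1 : K ≤ nu (adj_isHermitian G) := nu_clique (adj_isHermitian G) f hf
      (fun i j => by
        rw [SimpleGraph.adjMatrix_apply]
        by_cases hij : i = j
        · rw [hij]
          simp
        · rw [if_neg hij, if_pos]
          by_contra h2
          exact hI2 _ (hfI i) _ (hfI j) (fun h => hij (hf h)) h2)
    omega

open Classical in
theorem few_nu' {V : Type*} [Fintype V] [DecidableEq V] (G : SimpleGraph V) {K : ℕ}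
    (hK : 1 ≤ K) (hn : Real.exp (CC * Real.sqrt K) ≤ Fintype.card V)
    (hC : (-(G.adjMatrix ℝ + 1)).IsHermitian) : K ≤ nu hC := by
  refine (few_nu Gᶜ hK hn).trans ?_
  obtain ⟨L, hL, hform⟩ := exists_nonpos (adj_isHermitian Gᶜ)
  refine nu_ge hC L hL fun a => le_trans ?_ (hform a)
  have h2 : 0 ≤ (∑ x, L a x) * (∑ y, L a y) := mul_self_nonneg _
  rw [Finset.sum_mul_sum] at h2
  rw [← sub_nonneg, ← Finset.sum_sub_distrib]
  refine h2.trans (le_of_eq (Finset.sum_congr rfl fun x _ => ?_))
  rw [← Finset.sum_sub_distrib]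
  refine Finset.sum_congr rfl fun y _ => ?_
  simp only [Matrix.neg_apply, Matrix.add_apply, SimpleGraph.adjMatrix_apply,
    SimpleGraph.compl_adj]
  by_cases hxy : x = y
  · subst hxy
    simp
  · rw [Matrix.one_apply_ne hxy]
    by_cases hadj : G.Adj x y
    · simp [hadj]
    · simp [hadj, hxy]

open Classical in
/-- the count statement -/
theorem few : ∃ C : ℝ, 0 < C ∧ ∀ K : ℕ, 1 ≤ K → ∀ n : ℕ, Real.exp (C * Real.sqrt K) ≤ n →
    ∀ G : SimpleGraph (Fin n),
      K ≤ (Finset.univ.filter fun i => (adj_isHermitian G).eigenvalues i ≤ 0).card ∧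
      ∀ hC : (-(G.adjMatrix ℝ + 1)).IsHermitian,
        K ≤ (Finset.univ.filter fun i => hC.eigenvalues i ≤ 0).card := by
  refine ⟨CC, CC_pos, fun K hK n hn G => ⟨?_, fun hC => ?_⟩⟩
  · exact few_nu G hK (by rw [Fintype.card_fin]; exact hn)
  · exact few_nu' G hK (by rw [Fintype.card_fin]; exact hn) hC

end Pool.Agent.Lib.MP_b9b22b_co.Few.H68
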