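import Pool.Agent.Lib.MP_b9b22b_co.Few.Step
import Pool.Agent.Lib.MP_b9b22b_co.Few.H68.Exhaust

/-!
Nearly homogeneous pairs in every subset, from short vectors.
-/

set_option autoImplicit false

open MeasureTheory ProbabilityTheory Real Finset

namespace Pool.Agent.Lib.MP_b9b22b_co.Few.H68

open Pool.Agent.Lib.MP_b9b22b_co.Few

theorem Phi_eq {V : Type*} (s : V → V → Prop) (K : ℝ) (X Y : Finset V) :
    Phi s K X Y = ec s X Y - K * ec (fun x y => ¬ s x y) X Y := by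
  classical
  unfold Phi ec
  rw [Finset.mul_sum, ← Finset.sum_sub_distrib]
  refine Finset.sum_congr rfl fun x _ => ?_
  rw [Finset.mul_sum, ← Finset.sum_sub_distrib]
  refine Finset.sum_congr rfl fun y _ => ?_
  by_cases h : s x y <;> simp [h]

variable {E : Type*} [NormedAddCommGroup E] [InnerProductSpace ℝ E] [FiniteDimensional ℝ E]
  [MeasurableSpace E] [BorelSpace E]

/-- One colour: if `s` is the majority on `X₀ × Y₀`. -/
theorem one_colour {V : Type*} (s : V → V → Prop) {g η : ℝ} (hg : 1 ≤ g) (hη : 0 < η)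
    (p q : V → E) (m : ℕ)
    (hm : ((1 - Real.exp (-1) / g) / (1 + Real.exp (-1) / g)) ^ m ≤ η / 2) (X₀ Y₀ : Finset V)
    (hp : ∀ x ∈ X₀, ‖p x‖ ^ 2 ≤ g) (hq : ∀ y ∈ Y₀, ‖q y‖ ^ 2 ≤ g)
    (hs : ∀ x ∈ X₀, ∀ y ∈ Y₀, s x y → inner ℝ (p x) (q y) = 1)
    (hs' : ∀ x ∈ X₀, ∀ y ∈ Y₀, ¬ s x y → inner ℝ (p x) (q y) = -1)
    (hX₀ : 0 < X₀.card) (hY₀ : 0 < Y₀.card)
    (hmaj : ec (fun x y => ¬ s x y) X₀ Y₀ ≤ ec s X₀ Y₀) :
    ∃ X ⊆ X₀, ∃ Y ⊆ Y₀, (1 / 4 : ℝ) ^ (m + 1) * X₀.card ≤ X.card ∧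
      (1 / 4 : ℝ) ^ (m + 1) * Y₀.card ≤ Y.card ∧
      ec (fun x y => ¬ s x y) X Y ≤ η * (X.card * Y.card) := by
  obtain ⟨X, hX, Y, hY, h⟩ := steps s hg p q m (1 / η) (by positivity) X₀ Y₀ hp hq hs hs'
  set c : ℝ := Real.exp (-1) / g with hc
  have hg0 : 0 < g := by linarith
  have hc0 : 0 < c := by positivity
  have hXr : (0 : ℝ) < X₀.card := by exact_mod_cast hX₀
  have hYr : (0 : ℝ) < Y₀.card := by exact_mod_cast hY₀
  have h1 := ec_add_not s X₀ Y₀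
  have h2 : (X₀.card : ℝ) * Y₀.card / 4 ≤ Phi s (1 / η * ((1 - c) / (1 + c)) ^ m) X₀ Y₀ := by
    rw [Phi_eq]
    have h3 : 1 / η * ((1 - c) / (1 + c)) ^ m ≤ 1 / 2 := by
      rw [one_div, inv_mul_le_iff₀ hη]
      linarith
    have h4 := ec_nonneg (fun x y => ¬ s x y) X₀ Y₀
    have h5 : 1 / η * ((1 - c) / (1 + c)) ^ m * ec (fun x y => ¬ s x y) X₀ Y₀ ≤
        1 / 2 * ec (fun x y => ¬ s x y) X₀ Y₀ := mul_le_mul_of_nonneg_right h3 h4
    linarith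
  have h3 : (1 / 4 : ℝ) ^ m ≤ ((1 + c) / 4) ^ m := by
    apply pow_le_pow_left₀ (by norm_num)
    linarith
  have h4 : (1 / 4 : ℝ) ^ (m + 1) * (X₀.card * Y₀.card) ≤ Phi s (1 / η) X Y := by
    refine le_trans ?_ h
    calc (1 / 4 : ℝ) ^ (m + 1) * (X₀.card * Y₀.card)
        = (1 / 4 : ℝ) ^ m * (X₀.card * Y₀.card / 4) := by ring
      _ ≤ ((1 + c) / 4) ^ m * (X₀.card * Y₀.card / 4) :=
          mul_le_mul_of_nonneg_right h3 (by positivity)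
      _ ≤ _ := mul_le_mul_of_nonneg_left h2 (by positivity)
  rw [Phi_eq] at h4
  have h5 := ec_nonneg (fun x y => ¬ s x y) X Y
  have h6 := ec_le s X Y
  have h7 : (0 : ℝ) ≤ (1 / 4 : ℝ) ^ (m + 1) * (X₀.card * Y₀.card) := by positivity
  have h8 : 0 ≤ 1 / η * ec (fun x y => ¬ s x y) X Y := by positivity
  have h9 : (1 / 4 : ℝ) ^ (m + 1) * (X₀.card * Y₀.card) ≤ (X.card : ℝ) * Y.card := by linarith
  have hXc : (X.card : ℝ) ≤ X₀.card := by exact_mod_cast Finset.card_le_card hX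
  have hYc : (Y.card : ℝ) ≤ Y₀.card := by exact_mod_cast Finset.card_le_card hY
  refine ⟨X, hX, Y, hY, ?_, ?_, ?_⟩
  · have h10 : (1 / 4 : ℝ) ^ (m + 1) * X₀.card * Y₀.card ≤ X.card * Y₀.card := by
      calc (1 / 4 : ℝ) ^ (m + 1) * X₀.card * Y₀.card
          = (1 / 4 : ℝ) ^ (m + 1) * (X₀.card * Y₀.card) := by ring
        _ ≤ (X.card : ℝ) * Y.card := h9
        _ ≤ (X.card : ℝ) * Y₀.card := mul_le_mul_of_nonneg_left hYc (Nat.cast_nonneg _)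
    exact le_of_mul_le_mul_right h10 hYr
  · have h10 : (1 / 4 : ℝ) ^ (m + 1) * Y₀.card * X₀.card ≤ Y.card * X₀.card := by
      calc (1 / 4 : ℝ) ^ (m + 1) * Y₀.card * X₀.card
          = (1 / 4 : ℝ) ^ (m + 1) * (X₀.card * Y₀.card) := by ring
        _ ≤ (X.card : ℝ) * Y.card := h9
        _ ≤ (X₀.card : ℝ) * Y.card := mul_le_mul_of_nonneg_right hXc (Nat.cast_nonneg _)
        _ = (Y.card : ℝ) * X₀.card := by ring
    exact le_of_mul_le_mul_right h10 hXr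
  · have h10 : 1 / η * ec (fun x y => ¬ s x y) X Y ≤ (X.card : ℝ) * Y.card := by linarith
    rw [one_div, inv_mul_le_iff₀ hη] at h10
    exact h10

theorem hpair_of_vectors {V : Type*} (s : V → V → Prop) {g η : ℝ} (hg : 1 ≤ g) (hη : 0 < η)
    (p q : V → E) (m : ℕ)
    (hm : ((1 - Real.exp (-1) / g) / (1 + Real.exp (-1) / g)) ^ m ≤ η / 2) (U : Finset V)
    (hp : ∀ x ∈ U, ‖p x‖ ^ 2 ≤ g) (hq : ∀ y ∈ U, ‖q y‖ ^ 2 ≤ g)
    (hs : ∀ x ∈ U, ∀ y ∈ U, s x y → inner ℝ (p x) (q y) = 1)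
    (hs' : ∀ x ∈ U, ∀ y ∈ U, ¬ s x y → inner ℝ (p x) (q y) = -1) :
    HPair s ((1 / 4) ^ (m + 2)) η U := by
  classical
  intro S hSU hS2
  obtain ⟨X₀, hX₀S, hX₀c⟩ := Finset.exists_subset_card_eq (s := S) (n := S.card / 2) (by omega)
  set Y₀ := S \ X₀ with hY₀
  have hY₀S : Y₀ ⊆ S := Finset.sdiff_subset
  have hdis : Disjoint X₀ Y₀ := Finset.disjoint_sdiff
  have hY₀c : Y₀.card = S.card - S.card / 2 := by
    rw [hY₀, Finset.card_sdiff_of_subset hX₀S, hX₀c]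
  have hXbig : (S.card : ℝ) / 4 ≤ X₀.card := by
    rw [hX₀c]
    have h1 : S.card ≤ 4 * (S.card / 2) := by omega
    have h2 : (S.card : ℝ) ≤ 4 * ((S.card / 2 : ℕ) : ℝ) := by exact_mod_cast h1
    linarith
  have hYbig : (S.card : ℝ) / 4 ≤ Y₀.card := by
    rw [hY₀c]
    have h1 : S.card ≤ 4 * (S.card - S.card / 2) := by omega
    have h2 : (S.card : ℝ) ≤ 4 * ((S.card - S.card / 2 : ℕ) : ℝ) := by exact_mod_cast h1
    linarith
  have hX0 : 0 < X₀.card := by omega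
  have hY0 : 0 < Y₀.card := by omega
  have hpow : ∀ a b : ℝ, (S.card : ℝ) / 4 ≤ a → (1 / 4 : ℝ) ^ (m + 1) * a ≤ b →
      (1 / 4 : ℝ) ^ (m + 2) * S.card ≤ b := by
    intro a b ha hb
    calc (1 / 4 : ℝ) ^ (m + 2) * S.card = (1 / 4 : ℝ) ^ (m + 1) * (S.card / 4) := by ring
      _ ≤ (1 / 4 : ℝ) ^ (m + 1) * a := mul_le_mul_of_nonneg_left ha (by positivity)
      _ ≤ b := hb
  rcases le_total (ec (fun x y => ¬ s x y) X₀ Y₀) (ec s X₀ Y₀) with hmaj | hmaj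
  · obtain ⟨X, hX, Y, hY, h1, h2, h3⟩ := one_colour s hg hη p q m hm X₀ Y₀
      (fun x hx => hp x (hSU (hX₀S hx))) (fun y hy => hq y (hSU (hY₀S hy)))
      (fun x hx y hy => hs x (hSU (hX₀S hx)) y (hSU (hY₀S hy)))
      (fun x hx y hy => hs' x (hSU (hX₀S hx)) y (hSU (hY₀S hy))) hX0 hY0 hmaj
    exact ⟨X, hX.trans hX₀S, Y, hY.trans hY₀S, Finset.disjoint_of_subset_left hX
      (Finset.disjoint_of_subset_right hY hdis), hpow _ _ hXbig h1, hpow _ _ hYbig h2, Or.inr h3⟩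
  · have hnn : (fun x y => ¬ ¬ s x y) = s := by
      funext x y
      exact propext not_not
    obtain ⟨X, hX, Y, hY, h1, h2, h3⟩ := one_colour (fun x y => ¬ s x y) hg hη p (fun y => - q y)
      m hm X₀ Y₀ (fun x hx => hp x (hSU (hX₀S hx)))
      (fun y hy => by rw [norm_neg]; exact hq y (hSU (hY₀S hy)))
      (fun x hx y hy h => by
        rw [inner_neg_right, hs' x (hSU (hX₀S hx)) y (hSU (hY₀S hy)) h, neg_neg])
      (fun x hx y hy h => by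
        rw [inner_neg_right, hs x (hSU (hX₀S hx)) y (hSU (hY₀S hy)) (not_not.mp h)])
      hX0 hY0 (by rw [hnn]; exact hmaj)
    rw [hnn] at h3
    exact ⟨X, hX.trans hX₀S, Y, hY.trans hY₀S, Finset.disjoint_of_subset_left hX
      (Finset.disjoint_of_subset_right hY hdis), hpow _ _ hXbig h1, hpow _ _ hYbig h2, Or.inl h3⟩

end Pool.Agent.Lib.MP_b9b22b_co.Few.H68
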