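import Pool.Agent.Lib.MP_b9b22b_co.Few.Vectors
import Pool.Agent.Lib.MP_b9b22b_co.Few.H68.Pair

/-!
The sum of the absolute values of the eigenvalues is small on nearly homogeneous sets.
-/

set_option autoImplicit false

open Finset Matrix

namespace Pool.Agent.Lib.MP_b9b22b_co.Few.H68

open Pool.Agent.Lib.MP_b9b22b_co.Few

section spec

variable {V : Type*} [Fintype V] [DecidableEq V] {A : Matrix V V ℝ} (hA : A.IsHermitian)

theorem inner_basis (i j : V) :
    ∑ x, hA.eigenvectorBasis i x * hA.eigenvectorBasis j x = if i = j then 1 else 0 := by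
  have h := orthonormal_iff_ite.1 hA.eigenvectorBasis.orthonormal i j
  rw [PiLp.inner_apply] at h
  rw [← h]
  refine Finset.sum_congr rfl fun x _ => ?_
  simp [mul_comm]

theorem form_basis (j : V) :
    ∑ x, ∑ y, A x y * (hA.eigenvectorBasis j x * hA.eigenvectorBasis j y) = hA.eigenvalues j := by
  have h1 : ∀ x, ∑ y, A x y * hA.eigenvectorBasis j y =
      hA.eigenvalues j * hA.eigenvectorBasis j x := by
    intro x
    have h := congrFun (hA.mulVec_eigenvectorBasis j) x
    simpa [Matrix.mulVec, dotProduct] using h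
  calc ∑ x, ∑ y, A x y * (hA.eigenvectorBasis j x * hA.eigenvectorBasis j y)
      = ∑ x, hA.eigenvectorBasis j x * ∑ y, A x y * hA.eigenvectorBasis j y := by
        refine Finset.sum_congr rfl fun x _ => ?_
        rw [Finset.mul_sum]
        exact Finset.sum_congr rfl fun y _ => by ring
    _ = ∑ x, hA.eigenvalues j * hA.eigenvectorBasis j x ^ 2 := by
        refine Finset.sum_congr rfl fun x _ => ?_
        rw [h1]
        ring
    _ = hA.eigenvalues j := by rw [← Finset.mul_sum, norm_one hA, mul_one]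

theorem sum_proj_sq (N : Finset V) :
    ∑ x, ∑ y, (∑ j ∈ N, hA.eigenvectorBasis j x * hA.eigenvectorBasis j y) ^ 2 = N.card := by
  calc ∑ x, ∑ y, (∑ j ∈ N, hA.eigenvectorBasis j x * hA.eigenvectorBasis j y) ^ 2
      = ∑ x, ∑ y, ∑ i ∈ N, ∑ j ∈ N, (hA.eigenvectorBasis i x * hA.eigenvectorBasis j x) *
          (hA.eigenvectorBasis i y * hA.eigenvectorBasis j y) := by
        refine Finset.sum_congr rfl fun x _ => Finset.sum_congr rfl fun y _ => ?_
        rw [sq, Finset.sum_mul_sum]
        refine Finset.sum_congr rfl fun i _ => Finset.sum_congr rfl fun j _ => by ring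
    _ = ∑ i ∈ N, ∑ j ∈ N, ∑ x, ∑ y, (hA.eigenvectorBasis i x * hA.eigenvectorBasis j x) *
          (hA.eigenvectorBasis i y * hA.eigenvectorBasis j y) := by
        rw [Finset.sum_congr rfl fun x _ => Finset.sum_comm, Finset.sum_comm]
        refine Finset.sum_congr rfl fun i _ => ?_
        rw [Finset.sum_congr rfl fun x _ => Finset.sum_comm, Finset.sum_comm]
    _ = ∑ i ∈ N, ∑ j ∈ N, (if i = j then (1 : ℝ) else 0) := by
        refine Finset.sum_congr rfl fun i _ => Finset.sum_congr rfl fun j _ => ?_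
        rw [← Finset.sum_mul_sum, inner_basis hA]
        split_ifs <;> norm_num
    _ = N.card := by simp

theorem sum_abs_le_of_form {k : ℕ} (htr : A.trace = 0)
    (hk : (Finset.univ.filter fun j => hA.eigenvalues j ≤ 0).card ≤ k) (C : V → V → ℝ)
    (hC : ∀ j, hA.eigenvalues j ≤ 0 → -hA.eigenvalues j ≤
      ∑ x, ∑ y, C x y * (hA.eigenvectorBasis j x * hA.eigenvectorBasis j y)) :
    ∑ j, |hA.eigenvalues j| ≤ 2 * Real.sqrt (k * ∑ x, ∑ y, C x y ^ 2) := by
  set N := Finset.univ.filter fun j => hA.eigenvalues j ≤ 0 with hN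
  have h0 : ∑ j, hA.eigenvalues j = 0 := by
    have := hA.trace_eq_sum_eigenvalues
    rw [htr] at this
    simpa using this.symm
  have h1 : ∑ j, |hA.eigenvalues j| = 2 * ∑ j ∈ N, -hA.eigenvalues j := by
    have h2 : ∑ j, |hA.eigenvalues j| =
        ∑ j ∈ N, |hA.eigenvalues j| + ∑ j ∈ Nᶜ, |hA.eigenvalues j| :=
      (Finset.sum_add_sum_compl N _).symm
    have h3 : ∑ j, hA.eigenvalues j =
        ∑ j ∈ N, hA.eigenvalues j + ∑ j ∈ Nᶜ, hA.eigenvalues j :=
      (Finset.sum_add_sum_compl N _).symm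
    have h4 : ∑ j ∈ N, |hA.eigenvalues j| = ∑ j ∈ N, -hA.eigenvalues j := by
      refine Finset.sum_congr rfl fun j hj => ?_
      rw [hN, Finset.mem_filter] at hj
      exact abs_of_nonpos hj.2
    have h5 : ∑ j ∈ Nᶜ, |hA.eigenvalues j| = ∑ j ∈ Nᶜ, hA.eigenvalues j := by
      refine Finset.sum_congr rfl fun j hj => ?_
      rw [hN, Finset.mem_compl, Finset.mem_filter, not_and] at hj
      exact abs_of_pos (not_le.mp (hj (Finset.mem_univ _)))
    have h6 : ∑ j ∈ N, -hA.eigenvalues j = -∑ j ∈ N, hA.eigenvalues j :=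
      Finset.sum_neg_distrib _
    rw [h0] at h3
    rw [h2, h4, h5, h6]
    linarith
  have h2 : ∑ j ∈ N, -hA.eigenvalues j ≤
      ∑ x, ∑ y, C x y * ∑ j ∈ N, hA.eigenvectorBasis j x * hA.eigenvectorBasis j y := by
    calc ∑ j ∈ N, -hA.eigenvalues j
        ≤ ∑ j ∈ N, ∑ x, ∑ y, C x y * (hA.eigenvectorBasis j x * hA.eigenvectorBasis j y) :=
          Finset.sum_le_sum fun j hj => hC j (Finset.mem_filter.mp hj).2
      _ = _ := by
          rw [Finset.sum_comm]
          refine Finset.sum_congr rfl fun x _ => ?_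
          rw [Finset.sum_comm]
          refine Finset.sum_congr rfl fun y _ => ?_
          rw [Finset.mul_sum]
  have h3 : ∑ x, ∑ y, C x y * ∑ j ∈ N, hA.eigenvectorBasis j x * hA.eigenvectorBasis j y ≤
      Real.sqrt (k * ∑ x, ∑ y, C x y ^ 2) := by
    apply Real.le_sqrt_of_sq_le
    have h4 := Finset.sum_mul_sq_le_sq_mul_sq (Finset.univ : Finset (V × V))
      (fun z => C z.1 z.2) (fun z => ∑ j ∈ N, hA.eigenvectorBasis j z.1 * hA.eigenvectorBasis j z.2)
    rw [← Finset.univ_product_univ, Finset.sum_product, Finset.sum_product,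
      Finset.sum_product] at h4
    simp only at h4
    rw [sum_proj_sq hA N] at h4
    refine h4.trans ?_
    have h5 : (N.card : ℝ) ≤ k := by exact_mod_cast hk
    have h6 : 0 ≤ ∑ x, ∑ y, C x y ^ 2 :=
      Finset.sum_nonneg fun _ _ => Finset.sum_nonneg fun _ _ => sq_nonneg _
    nlinarith
  rw [h1]
  linarith

end spec

section graph

variable {V : Type*} [DecidableEq V]

open Classical in
/-- the matrix of a relation on a finite set -/
noncomputable def AW (s : V → V → Prop) (W : Finset V) : Matrix W W ℝ :=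
  fun x y => if s x y then 1 else 0

theorem AW_herm {s : V → V → Prop} (hs : ∀ x y, s x y → s y x) (W : Finset V) :
    (AW s W).IsHermitian := by
  classical
  ext x y
  simp only [Matrix.conjTranspose_apply, AW, star_trivial]
  by_cases h : s x y
  · rw [if_pos h, if_pos (hs _ _ h)]
  · rw [if_neg h, if_neg fun h' => h (hs _ _ h')]

theorem AW_trace {s : V → V → Prop} (hi : ∀ x, ¬ s x x) (W : Finset V) :
    (AW s W).trace = 0 := by
  classical
  rw [Matrix.trace]
  refine Finset.sum_eq_zero fun x _ => ?_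
  simp [AW, hi]

theorem sum_W (W : Finset V) (f : V → V → ℝ) :
    ∑ x : W, ∑ y : W, f x y = ∑ x ∈ W, ∑ y ∈ W, f x y := by
  rw [Finset.sum_coe_sort W (fun x => ∑ y : W, f x y)]
  exact Finset.sum_congr rfl fun x _ => Finset.sum_coe_sort W (fun y => f x y)

open Classical in
omit [DecidableEq V] in
theorem ec_W (r : V → V → Prop) (W : Finset V) :
    ec r W W = ∑ x : W, ∑ y : W, if r x y then (1 : ℝ) else 0 :=
  (sum_W W (fun x y => if r x y then (1 : ℝ) else 0)).symm

omit [DecidableEq V] in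
theorem sum_sq_AW (s : V → V → Prop) (W : Finset V) :
    ∑ x : W, ∑ y : W, (-AW s W x y) ^ 2 = ec s W W := by
  classical
  rw [ec_W]
  refine Finset.sum_congr rfl (fun x _ => Finset.sum_congr rfl (fun y _ => ?_))
  by_cases h : s x y <;> simp [AW, h]

omit [DecidableEq V] in
theorem sum_sq_AW' (s : V → V → Prop) (W : Finset V) :
    ∑ x : W, ∑ y : W, (1 - AW s W x y) ^ 2 = ec (fun x y => ¬ s x y) W W := by
  classical
  rw [ec_W]
  refine Finset.sum_congr rfl (fun x _ => Finset.sum_congr rfl (fun y _ => ?_))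
  by_cases h : s x y <;> simp [AW, h]

/-- `W` is homogeneous up to the share `ε`. -/
def Homog (s : V → V → Prop) (ε : ℝ) (W : Finset V) : Prop :=
  ec s W W ≤ ε * (W.card : ℝ) ^ 2 ∨ ec (fun x y => ¬ s x y) W W ≤ ε * (W.card : ℝ) ^ 2

theorem sum_abs_AW {s : V → V → Prop} (hs : ∀ x y, s x y → s y x) (hi : ∀ x, ¬ s x x)
    {k : ℕ} {W : Finset V}
    (hk : (Finset.univ.filter fun j => (AW_herm hs W).eigenvalues j ≤ 0).card ≤ k) {ε : ℝ}
    (hW : Homog s ε W) :
    ∑ j, |(AW_herm hs W).eigenvalues j| ≤ 2 * (Real.sqrt (k * ε) * W.card) := by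
  classical
  have hfin : ∀ S : ℝ, S ≤ ε * (W.card : ℝ) ^ 2 →
      Real.sqrt (k * S) ≤ Real.sqrt (k * ε) * W.card := by
    intro S hS
    have h1 : Real.sqrt (k * ε) * W.card = Real.sqrt (k * ε * (W.card : ℝ) ^ 2) := by
      rw [Real.sqrt_mul' _ (sq_nonneg _), Real.sqrt_sq (Nat.cast_nonneg _)]
    rw [h1]
    apply Real.sqrt_le_sqrt
    rw [mul_assoc]
    exact mul_le_mul_of_nonneg_left hS (Nat.cast_nonneg _)
  rcases hW with h | h
  · have h1 := sum_abs_le_of_form (AW_herm hs W) (AW_trace hi W) hk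
      (fun x y => -AW s W x y) (fun j _ => by
        have h2 := form_basis (AW_herm hs W) j
        simp only [neg_mul, Finset.sum_neg_distrib]
        rw [h2])
    rw [sum_sq_AW] at h1
    exact h1.trans (mul_le_mul_of_nonneg_left (hfin _ h) (by norm_num))
  · have h1 := sum_abs_le_of_form (AW_herm hs W) (AW_trace hi W) hk
      (fun x y => 1 - AW s W x y) (fun j _ => by
        have h2 := form_basis (AW_herm hs W) j
        simp only [sub_mul, one_mul, Finset.sum_sub_distrib]
        rw [h2, ← Finset.sum_mul_sum]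
        nlinarith [mul_self_nonneg (∑ x, (AW_herm hs W).eigenvectorBasis j x)])
    rw [sum_sq_AW'] at h1
    exact h1.trans (mul_le_mul_of_nonneg_left (hfin _ h) (by norm_num))

/-- Nearly homogeneous pairs in half of a nearly homogeneous set. -/
theorem exists_half {s : V → V → Prop} (hs : ∀ x y, s x y → s y x) (hi : ∀ x, ¬ s x x)
    {k : ℕ} {W : Finset V}
    (hk : (Finset.univ.filter fun j => (AW_herm hs W).eigenvalues j ≤ 0).card ≤ k) {ε : ℝ}
    (hW : Homog s ε W) {g : ℝ} (hg : g = 2 + 8 * Real.sqrt (k * ε)) :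
    ∃ U ⊆ W, (W.card : ℝ) ≤ 2 * U.card ∧ ∀ (m : ℕ) (η : ℝ), 0 < η →
      ((1 - Real.exp (-1) / g) / (1 + Real.exp (-1) / g)) ^ m ≤ η / 2 →
      HPair s ((1 / 4) ^ (m + 2)) η U := by
  classical
  set hA := AW_herm hs W with hAdef
  have hsk := Real.sqrt_nonneg (k * ε : ℝ)
  have hg1 : 1 ≤ g := by rw [hg]; linarith
  set V₁ : Finset W := Finset.univ.filter (fun x => 1 + 2 * absDiag hA x ≤ g) with hV₁
  have h1 := sum_abs_AW hs hi hk hW
  have hcW : Fintype.card W = W.card := Fintype.card_coe W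
  have hcard : (W.card : ℝ) ≤ 2 * V₁.card := by
    have h2 : ((V₁ᶜ).card : ℝ) * g ≤ W.card * (g / 2) := by
      calc ((V₁ᶜ).card : ℝ) * g = ∑ _x ∈ V₁ᶜ, g := by rw [Finset.sum_const, nsmul_eq_mul]
        _ ≤ ∑ x ∈ V₁ᶜ, (1 + 2 * absDiag hA x) := by
            refine Finset.sum_le_sum fun x hx => ?_
            rw [hV₁, Finset.mem_compl, Finset.mem_filter, not_and] at hx
            exact (not_le.mp (hx (Finset.mem_univ _))).le
        _ ≤ ∑ x, (1 + 2 * absDiag hA x) :=
            Finset.sum_le_sum_of_subset_of_nonneg (Finset.subset_univ _)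
              fun x _ _ => by linarith [absDiag_nonneg hA x]
        _ = W.card + 2 * ∑ j, |hA.eigenvalues j| := by
            rw [Finset.sum_add_distrib, ← Finset.mul_sum, sum_absDiag]
            simp
        _ ≤ W.card * (g / 2) := by
            rw [hg]
            nlinarith
    have h3 : (V₁ᶜ.card : ℝ) ≤ W.card / 2 := by
      have h4 : (V₁ᶜ.card : ℝ) * g ≤ (W.card / 2 : ℝ) * g := by linarith
      exact le_of_mul_le_mul_right h4 (by linarith)
    have h5 : (V₁.card : ℝ) + V₁ᶜ.card = W.card := by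
      rw [← hcW]
      exact_mod_cast Finset.card_add_card_compl V₁
    linarith
  set U : Finset V := V₁.map (Function.Embedding.subtype _) with hU
  have hUW : U ⊆ W := by
    intro x hx
    rw [hU, Finset.mem_map] at hx
    obtain ⟨y, _, rfl⟩ := hx
    exact y.2
  have hUc : U.card = V₁.card := by rw [hU, Finset.card_map]
  have hmem : ∀ x (hx : x ∈ U), 1 + 2 * absDiag hA ⟨x, hUW hx⟩ ≤ g := by
    intro x hx
    have hx' := hx
    rw [hU, Finset.mem_map] at hx'
    obtain ⟨y, hy, hyx⟩ := hx'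
    have h2 := (Finset.mem_filter.mp hy).2
    have h3 : y = ⟨x, hUW hx⟩ := Subtype.ext hyx
    rw [← h3]
    exact h2
  refine ⟨U, hUW, by rw [hUc]; exact hcard, ?_⟩
  intro m η hη hm
  let p : V → EuclideanSpace ℝ (Option W) := fun x => if h : x ∈ W then pvec hA ⟨x, h⟩ else 0
  let q : V → EuclideanSpace ℝ (Option W) := fun x => if h : x ∈ W then qvec hA ⟨x, h⟩ else 0
  have hp : ∀ x (hx : x ∈ U), p x = pvec hA ⟨x, hUW hx⟩ := fun x hx => by
    simp only [p]
    rw [dif_pos (hUW hx)]
  have hq : ∀ x (hx : x ∈ U), q x = qvec hA ⟨x, hUW hx⟩ := fun x hx => by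
    simp only [q]
    rw [dif_pos (hUW hx)]
  have hnn : (fun x y => ¬ ¬ s x y) = s := by
    funext x y
    exact propext not_not
  have hpair := hpair_of_vectors (fun x y => ¬ s x y) hg1 hη p q m hm U
    (fun x hx => by rw [hp x hx]; exact (norm_pvec hA _).le.trans (hmem x hx))
    (fun x hx => by rw [hq x hx]; exact (norm_qvec hA _).trans (hmem x hx))
    (fun x hx y hy h => by
      rw [hp x hx, hq y hy, inner_pq]
      simp only [AW]
      rw [if_neg h]
      norm_num)
    (fun x hx y hy h => by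
      rw [hp x hx, hq y hy, inner_pq]
      simp only [AW]
      rw [if_pos (not_not.mp h)]
      norm_num)
  intro S hS hS2
  obtain ⟨X, hX, Y, hY, hd, h2, h3, h4⟩ := hpair S hS hS2
  refine ⟨X, hX, Y, hY, hd, h2, h3, ?_⟩
  rw [hnn] at h4
  exact h4.symm

end graph

end Pool.Agent.Lib.MP_b9b22b_co.Few.H68
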